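import Pool.Agent.W601.RP.Stm2

/-! RP-FIN: the final step (helper382) -/

set_option autoImplicit false
open Filter Topology

namespace Pool.Agent.W382.RP

open Pool.Agent.W601.RP

noncomputable section

/-- evaluation at a point is continuous on the dual -/
theorem eval_cont (A : Type) [Monoid A] [TopologicalSpace A] (g : A) :
    Continuous (fun χ : PontryaginDual A => χ g) := by
  show Continuous (fun χ : (A →ₜ* Circle) => χ g)
  exact continuous_eval_const g

/-- evaluation as an element of the bidual -/
def evD (A : Type) [Monoid A] [TopologicalSpace A] (g : A) :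
    PontryaginDual (PontryaginDual A) :=
  ({ toFun := fun χ => χ g
     map_one' := rfl
     map_mul' := fun _ _ => rfl
     continuous_toFun := eval_cont A g } : (PontryaginDual A) →ₜ* Circle)

theorem evD_apply (A : Type) [Monoid A] [TopologicalSpace A] (g : A) (χ : PontryaginDual A) :
    evD A g χ = χ g := rfl

theorem fin : S_GS → S_PRE → S_CH → S_FINC → S_PW → S_DD → S_FIN := by
  intro hGS hPRE hCH hFINC hPW hDD
  obtain ⟨-, -, -, hcnt, hinf⟩ := hGS
  have hinj : Function.Injective (evD (Multiplicative ↥GS)) := by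
    intro g g' hgg
    have key : ∀ h : ↥H, ((Multiplicative.toAdd g : ↥GS) : ↥H → TT) h =
        ((Multiplicative.toAdd g' : ↥GS) : ↥H → TT) h := by
      intro h
      obtain ⟨χ, hχ⟩ := hCH.2 h
      have h1 : evD (Multiplicative ↥GS) g χ = evD (Multiplicative ↥GS) g' χ := by rw [hgg]
      rw [evD_apply, evD_apply] at h1
      have h2 := hχ (Multiplicative.toAdd g)
      have h3 := hχ (Multiplicative.toAdd g')
      rw [ofAdd_toAdd] at h2 h3
      rw [h2, h3] at h1
      exact AddCircle.injective_toCircle one_ne_zero h1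
    exact Multiplicative.toAdd.injective (Subtype.ext (funext key))
  have hsurj : Function.Surjective (evD (Multiplicative ↥GS)) := by
    intro Ψ
    obtain ⟨g, hg⟩ := hDD Ψ
    exact ⟨g, PontryaginDual.ext fun χ => (hg χ).symm⟩
  have hcont : Continuous (evD (Multiplicative ↥GS)) :=
    hPW hFINC (Multiplicative ↥GS) (evD (Multiplicative ↥GS)) fun χ => map_continuous χ
  obtain ⟨E, hE⟩ : ∃ E : Multiplicative ↥GS ≃ PontryaginDual (PontryaginDual (Multiplicative ↥GS)),
      ∀ g, E g = evD (Multiplicative ↥GS) g :=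
    ⟨Equiv.ofBijective _ ⟨hinj, hsurj⟩, fun g => rfl⟩
  have hc1 : Continuous E := by
    have : (E : Multiplicative ↥GS → _) = evD (Multiplicative ↥GS) := funext hE
    rw [this]
    exact hcont
  have hval : Continuous (fun Ψ => Multiplicative.toAdd (E.symm Ψ)) := by
    apply continuous_induced_rng.2
    apply continuous_pi
    intro h
    obtain ⟨χ, hχ⟩ := hCH.2 h
    have h1 : ∀ Ψ, ((Multiplicative.toAdd (E.symm Ψ) : ↥GS) : ↥H → TT) h =
        (AddCircle.homeomorphCircle (T := 1) one_ne_zero).symm (Ψ χ) := by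
      intro Ψ
      rw [Homeomorph.eq_symm_apply, AddCircle.homeomorphCircle_apply,
        ← hχ (Multiplicative.toAdd (E.symm Ψ)), ofAdd_toAdd]
      have h2 := hE (E.symm Ψ)
      rw [Equiv.apply_symm_apply] at h2
      exact (congrArg (fun Φ : PontryaginDual (PontryaginDual (Multiplicative ↥GS)) => Φ χ) h2).symm
    have h3 : (fun Ψ => ((Multiplicative.toAdd (E.symm Ψ) : ↥GS) : ↥H → TT) h) =
        fun Ψ => (AddCircle.homeomorphCircle (T := 1) one_ne_zero).symm (Ψ χ) := funext h1
    show Continuous (fun Ψ => ((Multiplicative.toAdd (E.symm Ψ) : ↥GS) : ↥H → TT) h)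
    rw [h3]
    exact (AddCircle.homeomorphCircle (T := 1) one_ne_zero).symm.continuous.comp
      (eval_cont (PontryaginDual (Multiplicative ↥GS)) χ)
  have hc2 : Continuous E.symm := hval
  refine ⟨Multiplicative ↥GS, inferInstance, inferInstance, inferInstance, ?_, ?_, ?_, ?_⟩
  · exact hcnt
  · exact hinf
  · intro U hU
    obtain ⟨F, hF⟩ := hPRE U hU
    exact ⟨F, fun g => hF g⟩
  · exact ⟨⟨E, hc1, hc2⟩, fun g χ => by
      show E g χ = χ g
      rw [hE]
      rfl⟩

end

end Pool.Agent.W382.RP
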